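import Mathlib

set_option autoImplicit false
open Finset Real

namespace Pool.Agent.H.MP_74ce82_an

lemma nn {f f' : ℝ → ℝ} (hf : ∀ x, HasDerivAt f (f' x) x) (h0 : f 0 = 0) (h : ∀ x, 0 ≤ x → 0 ≤ f' x)
    {t : ℝ} (ht : 0 ≤ t) : 0 ≤ f t := by
  rw [← h0]
  exact monotoneOn_of_deriv_nonneg (convex_Ici 0) (fun x _ => (hf x).continuousAt.continuousWithinAt)
    (fun x _ => (hf x).differentiableAt.differentiableWithinAt)
    (fun x hx => by rw [(hf x).deriv]; exact h x (interior_subset hx)) Set.self_mem_Ici ht ht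

lemma p7 {t : ℝ} (ht : 0 ≤ t) : t - t ^ 3 / 3 + t ^ 5 / 5 - t ^ 7 / 7 ≤ arctan t :=
  sub_nonneg.1 <| nn (f := fun t => arctan t - (t - t ^ 3 / 3 + t ^ 5 / 5 - t ^ 7 / 7))
    (f' := fun x => x ^ 8 / (1 + x ^ 2)) (fun x => ((hasDerivAt_arctan x).sub
      ((((hasDerivAt_id' x).sub ((hasDerivAt_pow 3 x).div_const 3)).add
      ((hasDerivAt_pow 5 x).div_const 5)).sub ((hasDerivAt_pow 7 x).div_const 7))).congr_deriv
      (by field_simp; norm_num; ring)) (by simp) (fun x _ => by positivity) ht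

lemma c3 {t : ℝ} (ht : 0 ≤ t) : arctan t ≤ t * (15 + 4 * t ^ 2) / (15 + 9 * t ^ 2) :=
  sub_nonneg.1 <| nn (f := fun t => t * (15 + 4 * t ^ 2) / (15 + 9 * t ^ 2) - arctan t)
    (f' := fun x => 36 * x ^ 6 / ((1 + x ^ 2) * (15 + 9 * x ^ 2) ^ 2)) (fun x =>
      ((((hasDerivAt_id' x).mul (((hasDerivAt_pow 2 x).const_mul 4).const_add 15)).div
      (((hasDerivAt_pow 2 x).const_mul 9).const_add 15) (by positivity)).sub
      (hasDerivAt_arctan x)).congr_deriv (by simp only [Pi.mul_apply]; field_simp; norm_num; ring))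
    (by simp) (fun x _ => by positivity) ht

lemma c4 {t : ℝ} (ht : 0 ≤ t) : t * (105 + 55 * t ^ 2) / (105 + 90 * t ^ 2 + 9 * t ^ 4) ≤ arctan t :=
  sub_nonneg.1 <| nn
    (f := fun t => arctan t - t * (105 + 55 * t ^ 2) / (105 + 90 * t ^ 2 + 9 * t ^ 4))
    (f' := fun x => 576 * x ^ 8 / ((1 + x ^ 2) * (105 + 90 * x ^ 2 + 9 * x ^ 4) ^ 2)) (fun x =>
      ((hasDerivAt_arctan x).sub (((hasDerivAt_id' x).mul
      (((hasDerivAt_pow 2 x).const_mul 55).const_add 105)).div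
      ((((hasDerivAt_pow 2 x).const_mul 90).const_add 105).add ((hasDerivAt_pow 4 x).const_mul 9))
      (by simp only [Pi.add_apply]; positivity))).congr_deriv
      (by simp only [Pi.mul_apply, Pi.add_apply]; field_simp; norm_num; ring))
    (by simp) (fun x _ => by positivity) ht

lemma p5 {t : ℝ} (ht : 0 ≤ t) : arctan t ≤ t - t ^ 3 / 3 + t ^ 5 / 5 := (c3 ht).trans (by
  rw [div_le_iff₀ (by positivity)]; nlinarith [pow_nonneg ht 7])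

lemma lg {v : ℝ} (hv : 0 ≤ v) : v - v ^ 2 / 2 + v ^ 3 / 3 - v ^ 4 / 4 ≤ log (1 + v) := by
  obtain ⟨t, ht, rfl⟩ : ∃ t, 0 ≤ t ∧ v = t ^ 2 := ⟨√v, sqrt_nonneg _, (sq_sqrt hv).symm⟩
  have := nn (f := fun t => log (1 + t ^ 2) - (t ^ 2 - t ^ 4 / 2 + t ^ 6 / 3 - t ^ 8 / 4))
    (f' := fun x => 2 * x ^ 9 / (1 + x ^ 2)) (fun x => ((((hasDerivAt_pow 2 x).const_add 1).log
      (by positivity)).sub ((((hasDerivAt_pow 2 x).sub ((hasDerivAt_pow 4 x).div_const 2)).add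
      ((hasDerivAt_pow 6 x).div_const 3)).sub ((hasDerivAt_pow 8 x).div_const 4))).congr_deriv
      (by field_simp; norm_num; ring)) (by simp) (fun x _ => by positivity) ht
  linarith

lemma s5 {t : ℝ} (ht : 0 ≤ t) : sin t ≤ t - t ^ 3 / 6 + t ^ 5 / 120 :=
  sub_nonneg.1 <| nn (f := fun t => t - t ^ 3 / 6 + t ^ 5 / 120 - sin t)
    (f' := fun x => 1 - x ^ 2 / 2 + x ^ 4 / 24 - cos x) (fun x => ((((hasDerivAt_id' x).sub
      ((hasDerivAt_pow 3 x).div_const 6)).add ((hasDerivAt_pow 5 x).div_const 120)).sub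
      (hasDerivAt_sin x)).congr_deriv (by norm_num; ring)) (by simp) (fun x hx =>
    nn (f := fun x => 1 - x ^ 2 / 2 + x ^ 4 / 24 - cos x) (f' := fun x => sin x - (x - x ^ 3 / 6))
      (fun x => (((((hasDerivAt_pow 2 x).div_const 2).const_sub 1).add
      ((hasDerivAt_pow 4 x).div_const 24)).sub (hasDerivAt_cos x)).congr_deriv (by norm_num; ring))
      (by simp) (fun x hx => sub_nonneg.2 (sin_ge_sub_cube hx)) hx) ht

lemma tel {f g : ℝ → ℝ} (h0 : g 0 = 0) (h : ∀ m : ℝ, 1 / 2 ≤ m → g (m + 1 / 2) - g (m - 1 / 2) ≤ f m)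
    (N : ℕ) : g N ≤ ∑ j ∈ range N, f (j + 1 / 2) := by
  induction N with
  | zero => simp [h0]
  | succ N ih =>
    have := h (N + 1 / 2) (by simp)
    rw [add_sub_cancel_right, add_assoc, add_halves] at this
    rw [sum_range_succ]; push_cast; linarith

lemma sA {u : ℝ} (hu : 0 ≤ u) (N : ℕ) : N ^ 2 * u / 2 - (N ^ 4 / 4 - N ^ 2 / 8) * u ^ 3 / 3 +
    (N ^ 6 / 6 - 5 * N ^ 4 / 24) * u ^ 5 / 5 - N ^ 8 * u ^ 7 / 56 ≤
    ∑ j ∈ range N, arctan ((j + 1 / 2) * u) :=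
  tel (f := fun m => arctan (m * u)) (g := fun N => N ^ 2 * u / 2 - (N ^ 4 / 4 - N ^ 2 / 8) * u ^ 3 / 3 +
    (N ^ 6 / 6 - 5 * N ^ 4 / 24) * u ^ 5 / 5 - N ^ 8 * u ^ 7 / 56) (by simp) (fun m hm => by
      have m0 : 0 ≤ m := by linarith
      refine le_trans ?_ (p7 (by positivity))
      nlinarith [mul_nonneg m0 (pow_nonneg hu 5), mul_nonneg m0 (pow_nonneg hu 7),
        mul_nonneg (pow_nonneg m0 3) (pow_nonneg hu 7), mul_nonneg (pow_nonneg m0 5) (pow_nonneg hu 7)]) N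

lemma sB {u : ℝ} (hu : 0 ≤ u) (N : ℕ) : ∑ j ∈ range N, arctan ((j + 1 / 2) * u) ≤
    N ^ 2 * u / 2 - (N ^ 4 / 4 - N ^ 2 / 8) * u ^ 3 / 3 + N ^ 6 * u ^ 5 / 30 := by
  have := tel (f := fun m => -arctan (m * u)) (g := fun N => -(N ^ 2 * u / 2 -
    (N ^ 4 / 4 - N ^ 2 / 8) * u ^ 3 / 3 + N ^ 6 * u ^ 5 / 30)) (by simp) (fun m hm => by
      have m0 : 0 ≤ m := by linarith
      refine le_trans ?_ (neg_le_neg (p5 (by positivity)))
      nlinarith [mul_nonneg m0 (pow_nonneg hu 5), mul_nonneg (pow_nonneg m0 3) (pow_nonneg hu 5)]) N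
  rw [sum_neg_distrib] at this; linarith

lemma sE (w : ℝ) (hw : 0 ≤ w) (N : ℕ) : (N ^ 3 / 3 - N / 12) * w - N ^ 5 * w ^ 2 / 10 +
    (N ^ 7 / 7 - N ^ 5 / 4) * w ^ 3 / 3 - N ^ 9 * w ^ 4 / 36 ≤
    ∑ j ∈ range N, log (1 + (j + 1 / 2) ^ 2 * w) :=
  tel (f := fun m => log (1 + m ^ 2 * w)) (g := fun N => (N ^ 3 / 3 - N / 12) * w - N ^ 5 * w ^ 2 / 10 +
    (N ^ 7 / 7 - N ^ 5 / 4) * w ^ 3 / 3 - N ^ 9 * w ^ 4 / 36) (by simp) (fun m hm => by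
      refine le_trans ?_ (lg (by positivity))
      nlinarith [pow_nonneg hw 2, mul_nonneg (sq_nonneg m) (pow_nonneg hw 2), pow_nonneg hw 3,
        mul_nonneg (sq_nonneg m) (pow_nonneg hw 3), pow_nonneg hw 4,
        mul_nonneg (sq_nonneg m) (pow_nonneg hw 4), mul_nonneg (by positivity : 0 ≤ m ^ 4) (pow_nonneg hw 4),
        mul_nonneg (by positivity : 0 ≤ m ^ 6) (pow_nonneg hw 4)]) N

lemma key {X W : ℝ} (X0 : 0 < X) (X1 : X ≤ 1 / 4) (W0 : 0 ≤ W) (W1 : W ≤ X) :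
    1 < (1 - X / 6 + W / 12 + X ^ 2 / 15 - X * W / 12 - X ^ 3 / 28) *
      exp (X / 6 - W / 24 - X ^ 2 / 20 + X ^ 3 / 42 - X ^ 2 * W / 24 - X ^ 4 / 72) := by
  have b : ∀ k : ℕ, 0 ≤ X ^ k ∧ X ^ k ≤ (1 / 4) ^ k := fun k => ⟨by positivity, by gcongr⟩
  have e0 : 0 ≤ X / 6 - X ^ 2 / 20 + X ^ 3 / 42 - X ^ 4 / 72 := by
    nlinarith [b 1, b 2, b 3, mul_pos X0 X0]
  have q := quadratic_le_exp_of_nonneg e0
  have r := add_one_le_exp (-(W * (1 + X ^ 2) / 24))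
  have a0 : 0 ≤ 1 - X / 6 + X ^ 2 / 15 - X ^ 3 / 28 := by nlinarith [b 2, b 3]
  have a1 : 1 - X / 6 + X ^ 2 / 15 - X ^ 3 / 28 ≤ 1 := by nlinarith [b 3]
  have h1 : 1 < (1 - X / 6 + X ^ 2 / 15 - X ^ 3 / 28) * (1 + (X / 6 - X ^ 2 / 20 + X ^ 3 / 42 - X ^ 4 / 72)
      + (X / 6 - X ^ 2 / 20 + X ^ 3 / 42 - X ^ 4 / 72) ^ 2 / 2) := by
    have : 0 < 1 / 360 - 47 / 15120 * X - 593 / 30240 * X ^ 2 + 79 / 302400 * X ^ 3 + 214 / 496125 * X ^ 4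
      - 1061 / 2540160 * X ^ 5 + 4343 / 12700800 * X ^ 6 - 7793 / 106686720 * X ^ 7
      + 139 / 7620480 * X ^ 8 - 1 / 290304 * X ^ 9 := by
      linarith [b 2, b 3, b 4, b 5, b 6, b 7, b 8, b 9]
    nlinarith [mul_pos (pow_pos X0 2) this]
  have h2 : 1 - X / 6 + X ^ 2 / 15 - X ^ 3 / 28 ≤
      (1 - X / 6 + W / 12 + X ^ 2 / 15 - X * W / 12 - X ^ 3 / 28) * (-(W * (1 + X ^ 2) / 24) + 1) := by
    have o1 : W * (1 + X ^ 2) / 24 ≤ W * (17 / 384) := by nlinarith [b 2]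
    have o2 : W / 16 ≤ W / 12 - X * W / 12 := by nlinarith
    refine le_trans ?_ (mul_le_mul (a := 1 - X / 6 + X ^ 2 / 15 - X ^ 3 / 28 + W / 16)
      (c := 1 - W * (17 / 384)) (by linarith) (by linarith) (by linarith) (by linarith))
    generalize 1 - X / 6 + X ^ 2 / 15 - X ^ 3 / 28 = A at *
    nlinarith
  rw [show X / 6 - W / 24 - X ^ 2 / 20 + X ^ 3 / 42 - X ^ 2 * W / 24 - X ^ 4 / 72 =
    -(W * (1 + X ^ 2) / 24) + (X / 6 - X ^ 2 / 20 + X ^ 3 / 42 - X ^ 4 / 72) by ring, exp_add,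
    ← mul_assoc]
  refine h1.trans_le (mul_le_mul (h2.trans (mul_le_mul_of_nonneg_left r (by nlinarith))) q
    (by positivity) (mul_nonneg (by nlinarith) (exp_pos _).le))

end Pool.Agent.H.MP_74ce82_an
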