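import Pool.Agent.H.MP_74ce82_an.A

set_option autoImplicit false
open Finset Real

namespace Pool.Agent.H.MP_74ce82_an

noncomputable def S (N : ℕ) (u : ℝ) : ℝ := ∑ j ∈ range N, arctan ((j + 1 / 2) * u)

noncomputable def Q (N : ℕ) (y : ℝ) : ℝ := ∏ j ∈ range N, (((j : ℝ) + 1 / 2) ^ 2 + y ^ 2)

lemma S_mono (N : ℕ) {u v : ℝ} (h : u ≤ v) : S N u ≤ S N v :=
  sum_le_sum fun j _ => arctan_mono (by gcongr)

lemma Q_mono (N : ℕ) {u v : ℝ} (h0 : 0 ≤ u) (h : u ≤ v) : Q N u ≤ Q N v :=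
  prod_le_prod (fun _ _ => by positivity) fun j _ => by gcongr

lemma big {N : ℕ} (hN : 14 ≤ N) {y : ℝ} (y0 : 0 < y) (h : S N y⁻¹ = π) :
    (N ^ 2 / (2 * π)) ^ (2 * N) < Q N y ∧ Q N y < (N ^ 4 / (4 * π ^ 2) + N ^ 2 / 12) ^ N := by
  have N14 : (14 : ℝ) ≤ N := by exact_mod_cast hN
  have N0 : (0 : ℝ) < N := by linarith
  have pp := pi_pos
  obtain ⟨u, u0, rfl⟩ : ∃ u, 0 < u ∧ y = u⁻¹ := ⟨y⁻¹, by positivity, by simp⟩
  rw [inv_inv] at h
  have x1 : N * u ≤ 1 / 2 := by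
    by_contra hh
    have a := (sA (u := 1 / (2 * N)) (by positivity) N).trans ((S_mono N (v := u) (by
      rw [div_le_iff₀ (by positivity)]; linarith)).trans h.le)
    have e : N ^ 2 * (1 / (2 * N)) / 2 - (N ^ 4 / 4 - N ^ 2 / 8) * (1 / (2 * N)) ^ 3 / 3 +
      (N ^ 6 / 6 - 5 * N ^ 4 / 24) * (1 / (2 * N)) ^ 5 / 5 - N ^ 8 * (1 / (2 * (N : ℝ))) ^ 7 / 56 =
      N * (1 / 4 - 1 / 96 + 1 / 960 - 1 / 7168) + (N : ℝ)⁻¹ / 256 := by field_simp; ring
    have := inv_pos.2 N0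
    linarith [pi_lt_d2]
  have X1 : (N * u) ^ 2 ≤ 1 / 4 := by nlinarith [mul_pos N0 u0]
  have W1 : 196 * u ^ 2 ≤ (N * u) ^ 2 := by rw [mul_pow]; gcongr; nlinarith
  constructor
  · have k := key (X := (N * u) ^ 2) (W := u ^ 2) (by positivity) X1 (by positivity) (by nlinarith)
    have a := (sA u0.le N).trans h.le
    have e := sE (u ^ 2) (by positivity) N
    set A := 1 - (N * u) ^ 2 / 6 + u ^ 2 / 12 + ((N * u) ^ 2) ^ 2 / 15 - (N * u) ^ 2 * u ^ 2 / 12 -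
      ((N * u) ^ 2) ^ 3 / 28 with hA
    set E := (N * u) ^ 2 / 6 - u ^ 2 / 24 - ((N * u) ^ 2) ^ 2 / 20 + ((N * u) ^ 2) ^ 3 / 42 -
      ((N * u) ^ 2) ^ 2 * u ^ 2 / 24 - ((N * u) ^ 2) ^ 4 / 72 with hE
    have a' : N ^ 2 * u / 2 * A ≤ π := le_trans (le_of_eq (by rw [hA]; ring)) a
    have e' : (2 * N : ℕ) * E ≤ ∑ j ∈ range N, log (1 + (j + 1 / 2) ^ 2 * u ^ 2) :=
      le_trans (le_of_eq (by rw [hE]; push_cast; ring)) e
    clear_value A E
    calc _ < (u⁻¹ * exp E) ^ (2 * N) := by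
          refine pow_lt_pow_left₀ ?_ (by positivity) (by omega)
          rw [div_lt_iff₀ (by positivity), mul_assoc, lt_inv_mul_iff₀ u0]
          nlinarith [exp_pos E, mul_pos u0 (pow_pos N0 2)]
      _ ≤ u⁻¹ ^ (2 * N) * exp (∑ j ∈ range N, log (1 + (j + 1 / 2) ^ 2 * u ^ 2)) := by
          rw [mul_pow, ← exp_nat_mul]; gcongr
      _ = _ := by
          rw [exp_sum, pow_mul, ← card_range N, ← prod_const, card_range, ← prod_mul_distrib]
          refine prod_congr rfl fun j _ => ?_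
          rw [exp_log (by positivity)]; field_simp; ring
  · set M : ℝ := N ^ 4 / (4 * π ^ 2) + N ^ 2 / 12 with hM
    have M0 : 0 < M := by positivity
    have s2 := tel (f := fun m => -(m ^ 2 + u⁻¹ ^ 2)) (g := fun N => -(N ^ 3 / 3 + N * u⁻¹ ^ 2))
      (by simp) (fun m _ => by nlinarith) N
    rw [sum_neg_distrib, neg_le_neg_iff] at s2
    have b : π ≤ N ^ 2 * u / 2 * (1 - 0.149 * (N * u) ^ 2) := by
      refine h.ge.trans ((sB u0.le N).trans ?_)
      have : 0 ≤ N ^ 2 * u * ((N * u) ^ 2 - 196 * u ^ 2) := mul_nonneg (by positivity) (by linarith)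
      have : 0 ≤ N ^ 2 * u * (N * u) ^ 2 * (1 / 4 - (N * u) ^ 2) :=
        mul_nonneg (by positivity) (by linarith)
      have : 0 ≤ N ^ 2 * u * (N * u) ^ 2 := by positivity
      nlinarith
    have c : u⁻¹ ^ 2 + N ^ 2 / 4 < N ^ 4 / (4 * π ^ 2) := by
      rw [lt_div_iff₀ (by positivity)]
      calc _ ≤ (u⁻¹ ^ 2 + N ^ 2 / 4) * (4 * (N ^ 2 * u / 2 * (1 - 0.149 * (N * u) ^ 2)) ^ 2) := by
            gcongr
        _ = N ^ 4 * ((1 + (N * u) ^ 2 / 4) * (1 - 0.149 * (N * u) ^ 2) ^ 2) := by field_simp; ring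
        _ < N ^ 4 * 1 := by
            gcongr
            have : 0 < (N * u) ^ 2 := by positivity
            generalize (N * u) ^ 2 = X at *
            nlinarith [mul_pos this this]
        _ = _ := mul_one _
    calc _ ≤ ∏ j ∈ range N, M * exp ((((j : ℝ) + 1 / 2) ^ 2 + u⁻¹ ^ 2) / M - 1) :=
          prod_le_prod (fun _ _ => by positivity) fun j _ => by
            rw [← div_le_iff₀' M0]; linarith [add_one_le_exp ((((j : ℝ) + 1 / 2) ^ 2 + u⁻¹ ^ 2) / M - 1)]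
      _ = M ^ N * exp ((∑ j ∈ range N, (((j : ℝ) + 1 / 2) ^ 2 + u⁻¹ ^ 2)) / M - N) := by
          rw [prod_mul_distrib, ← exp_sum, sum_sub_distrib, sum_div]; simp
      _ < M ^ N * 1 := by
          gcongr
          rw [exp_lt_one_iff, sub_neg, div_lt_iff₀ M0]
          nlinarith
      _ = _ := mul_one _

lemma small {N : ℕ} {y : ℝ} (y0 : 0 < y) (h : S N y⁻¹ = π) {a b : ℝ} (a0 : 0 < a) (b0 : 0 < b)
    (ha : π < S N a⁻¹) (hb : ∑ j ∈ range N, (j + 1 / 2) * b⁻¹ * (15 + 4 * ((j + 1 / 2) * b⁻¹) ^ 2) /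
      (15 + 9 * ((j + 1 / 2) * b⁻¹) ^ 2) < 3.141592)
    (h1 : (N ^ 2 / (2 * 3.141592)) ^ (2 * N) < Q N a)
    (h2 : Q N b < (N ^ 4 / (4 * 3.141593 ^ 2) + N ^ 2 / 12) ^ N) :
    (N ^ 2 / (2 * π)) ^ (2 * N) < Q N y ∧ Q N y < (N ^ 4 / (4 * π ^ 2) + N ^ 2 / 12) ^ N := by
  have := pi_pos
  refine ⟨lt_of_le_of_lt (by gcongr; exact pi_gt_d6.le) (h1.trans_le (Q_mono N a0.le
    (le_of_not_gt fun hh => ?_))), ((Q_mono N y0.le (le_of_not_gt fun hh => ?_)).trans_lt h2).trans_le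
      (by gcongr; exact pi_lt_d6.le)⟩
  · linarith [S_mono N (inv_anti₀ y0 hh.le)]
  · have : S N b⁻¹ ≤ _ := sum_le_sum fun j _ => c3 (by positivity)
    linarith [S_mono N (inv_anti₀ b0 hh.le), pi_gt_d6]

lemma l4 {N : ℕ} {u : ℝ} (u0 : 0 ≤ u) (h : 3.141593 < ∑ j ∈ range N, (j + 1 / 2) * u *
    (105 + 55 * ((j + 1 / 2) * u) ^ 2) / (105 + 90 * ((j + 1 / 2) * u) ^ 2 + 9 * ((j + 1 / 2) * u) ^ 4)) :
    π < S N u := pi_lt_d6.trans (h.trans_le (sum_le_sum fun j _ => c4 (by positivity)))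

lemma bds {n : ℕ} (hn : 2 ≤ n) {y : ℝ} (y0 : 0 < y) (h : S (2 * n) y⁻¹ = π) :
    (2 * n ^ 2 / π) ^ (4 * n) < Q (2 * n) y ∧ Q (2 * n) y < (n / sin (π / (2 * n))) ^ (4 * n) := by
  have k : (((2 * n : ℕ) : ℝ) ^ 2 / (2 * π)) ^ (2 * (2 * n)) < Q (2 * n) y ∧
      Q (2 * n) y < (((2 * n : ℕ) : ℝ) ^ 4 / (4 * π ^ 2) + ((2 * n : ℕ) : ℝ) ^ 2 / 12) ^ (2 * n) := by
    rcases le_or_gt 7 n with h7 | h7
    · exact big (by omega) y0 h
    interval_cases n
    · refine small y0 h (a := 1.62) (b := 1.9) (by norm_num) (by norm_num) ?_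
        (by norm_num [sum_range_succ]) (by norm_num [Q, prod_range_succ])
        (by norm_num [Q, prod_range_succ])
      have a1 := c4 (t := 25 / 81) (by norm_num)
      have a2 := c4 (t := 25 / 27) (by norm_num)
      have a3 := c3 (t := (125 / 81)⁻¹) (by norm_num)
      have a4 := c3 (t := (175 / 81)⁻¹) (by norm_num)
      rw [arctan_inv_of_pos (by norm_num)] at a3 a4
      norm_num [S, sum_range_succ] at a1 a2 a3 a4 ⊢
      linarith
    · exact small y0 h (a := 4.74) (b := 5) (by norm_num) (by norm_num) (l4 (by norm_num)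
        (by norm_num [sum_range_succ])) (by norm_num [sum_range_succ])
        (by norm_num [Q, prod_range_succ]) (by norm_num [Q, prod_range_succ])
    · exact small y0 h (a := 9.175) (b := 9.4) (by norm_num) (by norm_num) (l4 (by norm_num)
        (by norm_num [sum_range_succ])) (by norm_num [sum_range_succ])
        (by norm_num [Q, prod_range_succ]) (by norm_num [Q, prod_range_succ])
    · exact small y0 h (a := 14.893) (b := 15.1) (by norm_num) (by norm_num) (l4 (by norm_num)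
        (by norm_num [sum_range_succ])) (by norm_num [sum_range_succ])
        (by norm_num [Q, prod_range_succ]) (by norm_num [Q, prod_range_succ])
    · exact small y0 h (a := 21.888) (b := 22.1) (by norm_num) (by norm_num) (l4 (by norm_num)
        (by norm_num [sum_range_succ])) (by norm_num [sum_range_succ])
        (by norm_num [Q, prod_range_succ]) (by norm_num [Q, prod_range_succ])
  have n2 : (2 : ℝ) ≤ n := by exact_mod_cast hn
  have pp := pi_pos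
  rw [show 4 * n = 2 * (2 * n) by ring]
  refine ⟨lt_of_eq_of_lt (by push_cast; congr 1; field_simp) k.1, k.2.trans_le ?_⟩
  rw [pow_mul (n / sin _)]
  refine pow_le_pow_left₀ (by positivity) ?_ _
  obtain ⟨φ, hφ⟩ : ∃ φ, φ = π / (2 * n) := ⟨_, rfl⟩
  have f0 : 0 < φ := by rw [hφ]; positivity
  have f1 : φ ≤ 1 := by rw [hφ, div_le_one (by positivity)]; linarith [pi_le_four]
  have s0 : 0 < sin φ := sin_pos_of_pos_of_lt_pi f0 (by linarith [pi_gt_three])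
  rw [← hφ, show π = φ * (2 * n) by rw [hφ]; field_simp, div_pow, le_div_iff₀ (by positivity)]
  push_cast
  calc _ ≤ ((2 * n) ^ 4 / (4 * (φ * (2 * n)) ^ 2) + (2 * n) ^ 2 / 12) *
        (φ - φ ^ 3 / 6 + φ ^ 5 / 120) ^ 2 := by gcongr; exact s5 f0.le
    _ = n ^ 2 * ((1 + φ ^ 2 / 3) * (1 - φ ^ 2 / 6 + (φ ^ 2) ^ 2 / 120) ^ 2) := by field_simp; ring
    _ ≤ n ^ 2 * 1 := by
        gcongr
        have h0 : 0 ≤ φ ^ 2 := by positivity
        have h1 : φ ^ 2 ≤ 1 := pow_le_one₀ f0.le f1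
        generalize φ ^ 2 = P at *
        nlinarith [pow_le_one₀ h0 h1 (n := 3), pow_nonneg h0 2, mul_nonneg (pow_nonneg h0 2) (sub_nonneg.2 h1),
          mul_nonneg (pow_nonneg h0 3) (sub_nonneg.2 h1), mul_nonneg (pow_nonneg h0 4) (sub_nonneg.2 h1)]
    _ = _ := mul_one _

end Pool.Agent.H.MP_74ce82_an
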