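import Pool.Agent.H.MP_74ce82_an.B

set_option autoImplicit false
open Finset Real

namespace Pool.Agent.H.MP_74ce82_an

noncomputable def T (N : ℕ) (x y : ℝ) : ℝ := ∑ j ∈ range N, arctan (y / (j + x))

noncomputable def R (N : ℕ) (x y : ℝ) : ℝ := ∏ j ∈ range N, (((j : ℝ) + x) ^ 2 + y ^ 2)

variable {N : ℕ}

lemma T_lt (hN : N ≠ 0) {x y y' : ℝ} (x0 : 0 < x) (h : y < y') : T N x y < T N x y' :=
  sum_lt_sum_of_nonempty (nonempty_range_iff.2 hN) fun j _ => arctan_strictMono (by gcongr)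

lemma T_anti {x x' y : ℝ} (x0 : 0 < x) (h : x ≤ x') (y0 : 0 ≤ y) : T N x' y ≤ T N x y :=
  sum_le_sum fun j _ => arctan_mono (by gcongr)

lemma T_neg (x y : ℝ) : T N x (-y) = -T N x y := by simp [T, neg_div]

lemma R_neg (x y : ℝ) : R N x (-y) = R N x y := by simp [R]

lemma R_pos {x : ℝ} (x0 : 0 < x) (y : ℝ) : 0 < R N x y := prod_pos fun _ _ => by positivity

lemma T_abs (hN : N ≠ 0) (x y : ℝ) : |T N x y| < N * (π / 2) := by
  refine (abs_sum_le_sum_abs _ _).trans_lt ((sum_lt_sum_of_nonempty (nonempty_range_iff.2 hN)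
    (g := fun _ => π / 2) fun j _ => abs_lt.2 ⟨neg_pi_div_two_lt_arctan _, arctan_lt_pi_div_two _⟩).trans_eq ?_)
  simp

lemma mono (hN : N ≠ 0) {x x' y y' : ℝ} (x0 : 0 < x) (h : x ≤ x') (e : T N x y = T N x' y') :
    y ^ 2 ≤ y' ^ 2 := by
  have k : ∀ y y' : ℝ, 0 ≤ y → T N x y = T N x' y' → y ^ 2 ≤ y' ^ 2 := fun y y' y0 e => by
    have : y ≤ y' := le_of_not_gt fun hh => by
      linarith [T_lt hN (x0.trans_le h) hh, T_anti (N := N) x0 h y0]
    gcongr
  rcases le_total 0 y with y0 | y0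
  · exact k y y' y0 e
  · simpa using k (-y) (-y') (by linarith) (by rw [T_neg, T_neg, e])

lemma R_le {x x' y y' : ℝ} (x0 : 0 < x) (h : x ≤ x') (e : y ^ 2 ≤ y' ^ 2) : R N x y ≤ R N x' y' :=
  prod_le_prod (fun _ _ => by positivity) fun j _ => by gcongr

lemma R_lt (hN : N ≠ 0) {x x' y y' : ℝ} (x0 : 0 < x) (h : x < x') (e : y ^ 2 ≤ y' ^ 2) :
    R N x y < R N x' y' :=
  prod_lt_prod_of_nonempty (fun _ _ => by positivity)
    (fun j _ => add_lt_add_of_lt_of_le (by gcongr) e) (nonempty_range_iff.2 hN)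

lemma inj (hN : N ≠ 0) {x x' y y' : ℝ} (x0 : 0 < x) (x0' : 0 < x') (e : T N x y = T N x' y')
    (f : R N x y = R N x' y') : x = x' ∧ y = y' := by
  have a : x = x' := by
    rcases lt_trichotomy x x' with h | h | h
    · linarith [R_lt hN x0 h (mono hN x0 h.le e)]
    · exact h
    · linarith [R_lt hN x0' h (mono hN x0' h.le e.symm)]
  subst a
  refine ⟨rfl, ?_⟩
  rcases lt_trichotomy y y' with h | h | h
  · linarith [T_lt hN x0 h]
  · exact h
  · linarith [T_lt hN x0 h]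

lemma R_big (hN : N ≠ 0) {x y a : ℝ} (x0 : 0 ≤ x) (a1 : 1 ≤ a) (h : a ≤ x ^ 2 + y ^ 2) :
    a ≤ R N x y := by
  refine (le_self_pow₀ a1 hN).trans ?_
  rw [← card_range N, ← prod_const, card_range]
  refine prod_le_prod (fun _ _ => by positivity) fun j _ => h.trans ?_
  gcongr; simp

lemma R_cont : Continuous fun p : ℝ × ℝ => R N p.1 p.2 := by unfold R; fun_prop

lemma ex (hN : N ≠ 0) {y r θ : ℝ} (y0 : 0 ≤ y) (h : R N (1 / 2) y ≤ r) (ht : |θ| ≤ T N (1 / 2) y) :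
    ∃ x y, 1 / 2 ≤ x ∧ R N x y = r ∧ T N x y = θ := by
  have r0 : 0 < r := (R_pos (by norm_num) _).trans_le h
  obtain ⟨Y, ⟨Y1, -⟩, hY⟩ : r ∈ (fun t => R N (1 / 2) t) '' Set.Icc y (y + r + 1) :=
    intermediate_value_Icc (by linarith) (R_cont.comp (by fun_prop : Continuous fun t : ℝ =>
      ((1 / 2 : ℝ), t))).continuousOn ⟨h, (by linarith : r ≤ r + 1).trans
      (R_big hN (by norm_num) (by linarith) (by nlinarith))⟩
  have Y0 : -Y ≤ Y := by linarith
  let L : Set (ℝ × ℝ) := (Set.Icc (1 / 2) (r + 1) ×ˢ Set.Icc (-Y) Y) ∩ {p | R N p.1 p.2 = r}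
  haveI : CompactSpace L := isCompact_iff_compactSpace.1
    ((isCompact_Icc.prod isCompact_Icc).inter_right (isClosed_eq R_cont continuous_const))
  have i : Function.Injective fun p : L => p.1.2 := by
    rintro ⟨⟨a, b⟩, ⟨⟨a1, -⟩, -⟩, h1⟩ ⟨⟨a', b'⟩, ⟨⟨a2, -⟩, -⟩, h2⟩ (rfl : b = b')
    simp only [Set.mem_setOf_eq] at h1 h2 a1 a2
    have : a = a' := by
      rcases lt_trichotomy a a' with h | h | h
      · linarith [R_lt hN (by linarith : 0 < a) h (le_refl (b ^ 2))]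
      · exact h
      · linarith [R_lt hN (by linarith : 0 < a') h (le_refl (b ^ 2))]
    subst this; rfl
  have c : IsPreconnected (Set.univ : Set L) := by
    rw [← (Continuous.isClosedEmbedding (by fun_prop) i).isInducing.isPreconnected_image]
    convert isPreconnected_Icc (a := -Y) (b := Y)
    refine Set.Subset.antisymm ?_ fun t ht => ?_
    · rintro _ ⟨p, -, rfl⟩; exact p.2.1.2
    obtain ⟨x, hx, e⟩ : r ∈ (fun s => R N s t) '' Set.Icc (1 / 2) (r + 1) :=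
      intermediate_value_Icc (by linarith) (R_cont.comp (by fun_prop : Continuous fun s : ℝ =>
        (s, t))).continuousOn ⟨hY ▸ R_le (by norm_num) le_rfl (sq_le_sq' ht.1 ht.2),
        (by linarith : r ≤ r + 1).trans (R_big hN (by linarith) (by linarith) (by nlinarith))⟩
    exact ⟨⟨(x, t), ⟨hx, ht⟩, e⟩, trivial, rfl⟩
  have tc : Continuous fun p : L => T N p.1.1 p.1.2 := continuous_finsetSum _ fun j _ =>
    continuous_arctan.comp (Continuous.div (by fun_prop) (by fun_prop) fun p => by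
      have := p.2.1.1.1; positivity)
  have tY : T N (1 / 2) y ≤ T N (1 / 2) Y := by
    rcases Y1.eq_or_lt with e | e
    exacts [e ▸ le_rfl, (T_lt hN (by norm_num) e).le]
  obtain ⟨p, -, hp⟩ := c.intermediate_value (a := ⟨(1 / 2, -Y), ⟨⟨le_rfl, by linarith⟩, le_rfl, Y0⟩,
    (R_neg _ _).trans hY⟩) (b := ⟨(1 / 2, Y), ⟨⟨le_rfl, by linarith⟩, Y0, le_rfl⟩, hY⟩) trivial trivial
    tc.continuousOn (show θ ∈ Set.Icc (T N (1 / 2) (-Y)) (T N (1 / 2) Y) from
      ⟨by rw [T_neg]; linarith [neg_abs_le θ], by linarith [le_abs_self θ]⟩)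
  exact ⟨_, _, p.2.1.1.1, p.2.2, hp⟩

lemma polar {x : ℝ} (x0 : 0 < x) (y : ℝ) : ∏ j ∈ range N, ((j : ℂ) - ⟨-x, -y⟩) =
    √(R N x y) * Complex.exp (T N x y * Complex.I) := by
  rw [R, T, sqrt_prod _ (fun _ _ => by positivity), Complex.ofReal_prod, Complex.ofReal_sum, sum_mul,
    Complex.exp_sum, ← prod_mul_distrib]
  refine prod_congr rfl fun j _ => ?_
  have a := abs_lt.1 (Complex.abs_arg_lt_pi_div_two_iff.2 (Or.inl (show 0 < ((j : ℂ) - ⟨-x, -y⟩).re by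
    simp; positivity)))
  rw [← Complex.norm_mul_exp_arg_mul_I ((j : ℂ) - ⟨-x, -y⟩), ← arctan_tan a.1 a.2, Complex.tan_arg,
    Complex.norm_eq_sqrt_sq_add_sq]
  simp

lemma root {x : ℝ} (x0 : 0 < x) (y d : ℝ) : ∏ j ∈ range N, ((j : ℂ) - ⟨-x, -y⟩) = d ↔
    ∃ m : ℤ, T N x y = m * π ∧ √(R N x y) * (-1) ^ m = d := by
  have r0 : 0 < √(R N x y) := sqrt_pos.2 (R_pos x0 y)
  rw [polar x0, Complex.ext_iff]
  simp only [Complex.re_ofReal_mul, Complex.im_ofReal_mul, Complex.exp_ofReal_mul_I_re,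
    Complex.exp_ofReal_mul_I_im, Complex.ofReal_re, Complex.ofReal_im, mul_eq_zero, r0.ne', false_or,
    sin_eq_zero_iff]
  constructor
  · rintro ⟨h, m, hm⟩
    exact ⟨m, hm.symm, by rw [← h, ← hm, cos_int_mul_pi]⟩
  · rintro ⟨m, hm, h⟩
    exact ⟨by rw [← h, hm, cos_int_mul_pi], m, hm.symm⟩

lemma star {n : ℕ} (hn : 1 ≤ n) : ∃ y, 0 ≤ y ∧ T (2 * n) (1 / 2) y = (n - 1) * π ∧
    (2 * n ^ 2 / π) ^ (4 * n) < R (2 * n) (1 / 2) y ∧
      R (2 * n) (1 / 2) y < (n / sin (π / (2 * n))) ^ (4 * n) := by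
  rcases hn.eq_or_lt with rfl | hn
  · refine ⟨0, le_rfl, by simp [T], ?_, by norm_num [R, prod_range_succ]⟩
    refine (pow_lt_pow_left₀ (b := 2 / 3) ?_ (by positivity) (by norm_num)).trans
      (by norm_num [R, prod_range_succ])
    norm_num; gcongr; exact pi_gt_three
  obtain ⟨u, ⟨u0, -⟩, hu⟩ : π ∈ S (2 * n) '' Set.Icc 0 2 := by
    refine intermediate_value_Icc (by norm_num) (by unfold S; fun_prop) ⟨by simp [S, pi_pos.le], ?_⟩
    calc π = ∑ j ∈ range 4, arctan 1 := by simp [arctan_one]; ring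
      _ ≤ ∑ j ∈ range (2 * n), arctan 1 := sum_le_sum_of_subset_of_nonneg
          (range_mono (by omega)) fun _ _ _ => by rw [arctan_one]; positivity
      _ ≤ _ := sum_le_sum fun j _ => arctan_mono (by linarith [(Nat.cast_nonneg j : (0 : ℝ) ≤ j)])
  have u1 : 0 < u := u0.lt_of_ne (by rintro rfl; simp [S] at hu; exact pi_pos.ne hu)
  refine ⟨u⁻¹, by positivity, ?_, bds hn (by positivity) (by rwa [inv_inv])⟩
  have : T (2 * n) (1 / 2) u⁻¹ = ∑ j ∈ range (2 * n), (π / 2 - arctan ((j + 1 / 2) * u)) :=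
    sum_congr rfl fun j _ => by
      rw [← arctan_inv_of_pos (by positivity)]; congr 1; field_simp
  rw [this, sum_sub_distrib, show ∑ j ∈ range (2 * n), arctan ((j + 1 / 2) * u) = π from hu]
  simp; ring

end Pool.Agent.H.MP_74ce82_an
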