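import Pool.Agent.H.MP_74ce82_an.C

set_option autoImplicit false
open Finset Real Polynomial

namespace Pool.Agent.H.MP_74ce82_an

noncomputable def P (N : ℕ) : ℂ[X] := ∏ j ∈ range N, (X - C (j : ℂ))

lemma P_monic (N : ℕ) : (P N).Monic := monic_prod_of_monic _ _ fun _ _ => monic_X_sub_C _

lemma P_deg (N : ℕ) : (P N).natDegree = N := by
  rw [P, natDegree_prod_of_monic _ _ fun _ _ => monic_X_sub_C _]
  simp only [natDegree_X_sub_C]; simp

lemma D_deg {N : ℕ} (d : ℂ) : (P N + C d).natDegree = N := by rw [natDegree_add_C, P_deg]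

lemma D_ne {N : ℕ} (hN : N ≠ 0) (d : ℂ) : P N + C d ≠ 0 := fun h => by
  have := D_deg (N := N) d; rw [h] at this; simp at this; omega

lemma nodup {N : ℕ} (hN : N ≠ 0) (d : ℂ) :
    ((P N + C d).roots.filter fun z => ¬ -1 / 2 < z.re).Nodup := by
  classical
  rw [Multiset.nodup_iff_count_le_one]
  intro z
  rw [Multiset.count_filter]
  split_ifs with h
  · omega
  rw [count_roots]
  refine le_of_not_gt fun hh => ?_
  have a := ((one_lt_rootMultiplicity_iff_isRoot (D_ne hN d)).1 hh).2
  rw [derivative_add, derivative_C, add_zero] at a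
  have p0 : 0 < (P N).degree := natDegree_pos_iff_degree_pos.1 (by rw [P_deg]; omega)
  have b := rootSet_derivative_subset_convexHull_rootSet p0 (a := z) (mem_rootSet.2 ⟨fun e => by
    have := derivative_eq_zero.1 e; rw [P_deg] at this; omega, by simpa using a⟩)
  have c := convexHull_min (s := (P N).rootSet ℂ) (fun w hw => by
    have := (mem_rootSet.1 hw).2
    simp only [P, coe_aeval_eq_eval, eval_prod, eval_sub, eval_X, eval_C, prod_eq_zero_iff,
      sub_eq_zero] at this
    obtain ⟨j, -, rfl⟩ := this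
    simp) (convex_halfSpace_re_ge 0) b
  simp only [Set.mem_ofPred_eq] at c
  exact h (by linarith)

lemma mem {n : ℕ} (hn : 1 ≤ n) (c : ℝ) (z : ℂ) :
    z ∈ ((P (2 * n) + C ((-1) ^ n * (c : ℂ))).roots.filter fun z => ¬ -1 / 2 < z.re) ↔
      1 / 2 ≤ -z.re ∧ ∃ m : ℤ, T (2 * n) (-z.re) (-z.im) = m * π ∧
        √(R (2 * n) (-z.re) (-z.im)) * (-1) ^ m = (-1) ^ (n + 1) * c := by
  rw [Multiset.mem_filter, mem_roots (D_ne (by omega) _), and_comm, not_lt]
  refine and_congr (by constructor <;> intro h <;> linarith) Iff.rfl |>.trans (and_congr_right fun h => ?_)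
  rw [← root (by linarith), IsRoot, eval_add, eval_C, add_eq_zero_iff_eq_neg, P, eval_prod]
  have : ∏ j ∈ range (2 * n), ((j : ℂ) - ⟨- -z.re, - -z.im⟩) =
      ∏ j ∈ range (2 * n), eval z (X - C (j : ℂ)) := by
    rw [← one_mul (∏ j ∈ range (2 * n), eval z (X - C (j : ℂ))),
      ← (even_two_mul n).neg_one_pow (α := ℂ), ← card_range (2 * n), ← prod_const, card_range,
      ← prod_mul_distrib]
    exact prod_congr rfl fun j _ => by simp
  rw [this]; push_cast; ring_nf

lemma cnt {n : ℕ} (hn : 1 ≤ n) {y : ℝ} (y0 : 0 ≤ y) (hy : T (2 * n) (1 / 2) y = (n - 1) * π) (c : ℝ) :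
    ((P (2 * n) + C ((-1) ^ n * (c : ℂ))).roots.filter fun z => ¬ -1 / 2 < z.re).card = n ↔
      √(R (2 * n) (1 / 2) y) ≤ c := by
  have hN : 2 * n ≠ 0 := by omega
  have pp := pi_pos
  let Z : Finset ℂ := ⟨_, nodup hN ((-1) ^ n * (c : ℂ))⟩
  have hZ : ∀ z, z ∈ Z ↔ _ := mem hn c
  change Z.card = n ↔ _
  let t : ℂ → ℝ := fun z => T (2 * n) (-z.re) (-z.im)
  have sq : ∀ {r : ℝ} {m : ℤ}, √r * (-1) ^ m = (-1) ^ (n + 1) * c →
      √r = |c| ∧ (0 < r → (0 < c ∧ Odd (m + n)) ∨ (c < 0 ∧ Even (m + n))) := fun {r m} h => by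
    refine ⟨by simpa [abs_mul, abs_zpow, abs_pow, abs_of_nonneg (sqrt_nonneg r)] using congrArg abs h,
      fun r0 => ?_⟩
    have := sqrt_pos.2 r0
    rcases Int.even_or_odd m with a | a <;> rcases Nat.even_or_odd n with b | b <;>
      simp only [a.neg_one_zpow, pow_succ, b.neg_one_pow] at h
    · exact .inr ⟨by linarith, a.add (by exact_mod_cast b)⟩
    · exact .inl ⟨by linarith, a.add_odd (by exact_mod_cast b)⟩
    · exact .inl ⟨by linarith, a.add_even (by exact_mod_cast b)⟩
    · exact .inr ⟨by linarith, a.add_odd (by exact_mod_cast b)⟩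
  have ti : Set.InjOn t Z := fun z hz w hw e => by
    obtain ⟨a, m, -, b⟩ := (hZ z).1 hz
    obtain ⟨a', m', -, b'⟩ := (hZ w).1 hw
    have := inj hN (by linarith) (by linarith) e ((sqrt_inj (R_pos (by linarith) _).le
      (R_pos (by linarith) _).le).1 ((sq b).1.trans (sq b').1.symm))
    exact Complex.ext (neg_inj.1 this.1) (neg_inj.1 this.2)
  have bd : ∀ z (m : ℤ), t z = m * π → -n < m ∧ m < n := fun z m h => by
    have := T_abs hN (-z.re) (-z.im)
    rw [show T (2 * n) (-z.re) (-z.im) = m * π from h, abs_lt] at this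
    push_cast at this
    constructor
    · exact_mod_cast (by nlinarith : -(n : ℝ) < m)
    · exact_mod_cast (by nlinarith : (m : ℝ) < n)
  have r0 := sqrt_pos.2 (R_pos (N := 2 * n) (by norm_num : (0 : ℝ) < 1 / 2) y)
  constructor
  · intro h
    refine le_of_not_gt fun hc => ?_
    obtain ⟨e, he⟩ : ∃ e : ℤ, ∀ z ∈ Z, ∃ k ∈ range (n - 1), t z = (2 * k + e - n : ℤ) * π := by
      refine ⟨if 0 < c then 1 else 2, fun z hz => ?_⟩
      obtain ⟨a, m, b, d⟩ := (hZ z).1 hz
      have f := bd z m b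
      rcases (sq d).2 (R_pos (by linarith) _) with ⟨c0, k, hk⟩ | ⟨c0, k, hk⟩
      · have : m ≠ n - 1 := by
          rintro rfl
          have := sqrt_le_sqrt (R_le (N := 2 * n) (by norm_num) a (mono hN (by norm_num) a
            (hy.trans (by rw [b]; simp))))
          rw [(sq d).1, abs_of_pos c0] at this
          linarith
        refine ⟨k.toNat, by simp; omega, b.trans ?_⟩
        rw [if_pos c0]; congr 2; omega
      · refine ⟨(k - 1).toNat, by simp; omega, b.trans ?_⟩
        rw [if_neg (by linarith)]; congr 2; omega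
    have := card_le_card_of_injOn (t := (range (n - 1)).image fun k : ℕ => ((2 * k + e - n : ℤ) : ℝ) * π)
      t (fun z hz => by
        obtain ⟨k, a, b⟩ := he z hz
        exact mem_coe.2 (mem_image.2 ⟨k, a, b.symm⟩)) ti
    have := this.trans card_image_le
    simp at this; omega
  · intro hc
    have c0 : 0 < c := r0.trans_le hc
    rw [← card_image_of_injOn ti, show Z.image t = (range n).image
      fun k : ℕ => ((2 * k + 1 - n : ℤ) : ℝ) * π from ?_, card_image_of_injective, card_range]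
    · intro k l h
      have := Int.cast_injective (mul_right_cancel₀ pp.ne' h)
      omega
    ext θ
    simp only [mem_image, mem_range]
    constructor
    · rintro ⟨z, hz, rfl⟩
      obtain ⟨a, m, b, d⟩ := (hZ z).1 hz
      have f := bd z m b
      rcases (sq d).2 (R_pos (by linarith) _) with ⟨-, k, hk⟩ | ⟨c1, -⟩
      · refine ⟨k.toNat, by omega, Eq.trans ?_ b.symm⟩
        congr 2; omega
      · linarith
    · rintro ⟨k, hk, rfl⟩
      have k1 : (k : ℝ) + 1 ≤ n := by exact_mod_cast hk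
      have k0 : (0 : ℝ) ≤ k := k.cast_nonneg
      obtain ⟨x, v, a, b, d⟩ := ex hN y0 (r := c ^ 2) (θ := ((2 * k + 1 - n : ℤ) : ℝ) * π)
        ((sqrt_le_left c0.le).1 hc) (by
          rw [hy, abs_le]; push_cast; constructor <;> nlinarith)
      refine ⟨⟨-x, -v⟩, (hZ _).2 ⟨by simpa using a, 2 * k + 1 - n, by simpa using d, ?_⟩, by simpa [t] using d⟩
      simp only [neg_neg, b, sqrt_sq c0.le]
      rw [mul_comm]; congr 1
      rcases Nat.even_or_odd n with b | b
      · rw [Odd.neg_one_zpow ((odd_two_mul_add_one _).sub_even (by exact_mod_cast b)), pow_succ,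
          b.neg_one_pow]; simp
      · rw [Even.neg_one_zpow ((odd_two_mul_add_one _).sub_odd (by exact_mod_cast b)), pow_succ,
          b.neg_one_pow]; simp

end Pool.Agent.H.MP_74ce82_an
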